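import Mathlib
import Pool.Agent.Helper69.BQ.Defs

/-!
# Project BQ, piece E6: a prime dividing `g12 g13 g23` generates the square of an ideal
-/

namespace Pool.Agent.Helper61.BQ

open Module NumberField Pool.Agent.Helper25.Biq Pool.Agent.Helper69.BQ

variable {K : Type} [Field K] [NumberField K] {g12 g13 g23 : ℤ}

private lemma sq_ideal_aux {R : Type} [CommRing R] {a a' m x y : R} (h : a * a' = m ^ 2)
    (h1 : x * a + y * a' = 1) : Ideal.span {a, m} ^ 2 = Ideal.span {a} := by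
  apply le_antisymm
  · rw [pow_two, Ideal.span_mul_span', Ideal.span_le]
    rintro z ⟨u, hu, v, hv, rfl⟩
    simp only [Set.mem_insert_iff, Set.mem_singleton_iff] at hu hv
    simp only [SetLike.mem_coe, Ideal.mem_span_singleton]
    rcases hu with hu | hu <;> rcases hv with hv | hv
    · exact ⟨v, by simp only [hu]⟩
    · exact ⟨v, by simp only [hu]⟩
    · exact ⟨u, by simp only [hv]; ring⟩
    · exact ⟨a', by simp only [hu, hv]; rw [h, pow_two]⟩
  · rw [Ideal.span_singleton_le_iff_mem]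
    have e : x * (a * a) + y * (m * m) = a := by
      linear_combination (-y) * h + a * h1
    have ha : a ∈ Ideal.span ({a, m} : Set R) := Ideal.subset_span (by simp)
    have hm : m ∈ Ideal.span ({a, m} : Set R) := Ideal.subset_span (by simp)
    have := Ideal.add_mem _ (Ideal.mul_mem_left (Ideal.span ({a, m} : Set R) ^ 2) x
      (by rw [pow_two]; exact Ideal.mul_mem_mul ha ha))
      (Ideal.mul_mem_left (Ideal.span ({a, m} : Set R) ^ 2) y
      (by rw [pow_two]; exact Ideal.mul_mem_mul hm hm))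
    rwa [e] at this

private lemma prime_aux {s : K} {d : ℤ} (hs : s ^ 2 = (d : K)) (hd : Squarefree d) {p : ℕ}
    (hp : p.Prime) (h : (p : ℤ) ∣ d) :
    ∃ I : Ideal (𝓞 K), I ^ 2 = Ideal.span {((p : ℕ) : 𝓞 K)} := by
  obtain ⟨a', rfl⟩ := h
  have hint : IsIntegral ℤ s := by
    apply IsIntegral.of_pow (n := 2) (by norm_num)
    rw [hs]
    exact isIntegral_algebraMap (R := ℤ) (x := ((p : ℤ) * a'))
  have hnd : ¬ (p : ℤ) ∣ a' := by
    rintro ⟨b, rfl⟩
    have := hd (p : ℤ) ⟨b, by ring⟩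
    rw [Int.isUnit_iff] at this
    have := hp.two_le
    omega
  have hc : IsCoprime (p : ℤ) a' := ((Nat.prime_iff_prime_int.mp hp).coprime_iff_not_dvd).2 hnd
  obtain ⟨x, y, hxy⟩ := hc
  refine ⟨Ideal.span {((p : ℕ) : 𝓞 K), ⟨s, hint⟩}, ?_⟩
  refine sq_ideal_aux (a' := ((a' : ℤ) : 𝓞 K)) (x := ((x : ℤ) : 𝓞 K)) (y := ((y : ℤ) : 𝓞 K)) ?_ ?_
  · apply RingOfIntegers.ext
    simp only [map_mul, map_pow, map_natCast, map_intCast]
    show (p : K) * (a' : K) = s ^ 2
    rw [hs]; push_cast; ring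
  · have := congrArg (Int.cast : ℤ → 𝓞 K) hxy
    push_cast at this
    exact this

/-- E6. A prime dividing `g12 g13 g23` (in particular 2) generates the square of an ideal. For `p`
dividing `g12` or `g13` use `(p, s1)`, for `p` dividing `g23` use `(p, s2)`. -/
lemma prime_sel (D : Dat K g12 g13 g23) (hA : Arith g12 g13 g23) {p : ℕ} (hp : p.Prime)
    (h : (p : ℤ) ∣ g12 * g13 * g23) :
    ∃ I : Ideal (𝓞 K), I ^ 2 = Ideal.span {((p : ℕ) : 𝓞 K)} := by
  have hpp : Prime (p : ℤ) := Nat.prime_iff_prime_int.mp hp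
  rcases hpp.dvd_or_dvd h with h1 | h1
  · exact prime_aux D.q1 (hA.sqf.squarefree_of_dvd ⟨g23, rfl⟩) hp h1
  · exact prime_aux D.q2 (hA.sqf.squarefree_of_dvd ⟨g13, by ring⟩) hp (Dvd.dvd.mul_left h1 _)

end Pool.Agent.Helper61.BQ
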